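import Pool.Agent.Helper65.PQ.Bas

set_option autoImplicit false
set_option linter.unusedSectionVars false

/-!
PQ part FSW: swapping two variables of weight one between two classes.
-/

namespace Pool.Agent.Helper65.PQ.FSW

open Finset Pool.Agent.Helper42.PQ Pool.Agent.Helper65.PQ Pool.Agent.Helper65.PQ.TR

/-- PQ part FSW. -/
theorem main : S_FSW := by
  intro ι _ _ d r q w ρ z z' S hz hz' hne hS
  obtain ⟨T, hT, rfl⟩ := hS
  have hzz : z ≠ z' := fun h => hne (by rw [h])
  set σ : Equiv.Perm ι := Equiv.swap z z' with hσ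
  have hwσ : ∀ i, w (σ i) = w i := by
    intro i
    by_cases h1 : i = z
    · rw [h1, hσ, Equiv.swap_apply_left, hz, hz']
    · by_cases h2 : i = z'
      · rw [h2, hσ, Equiv.swap_apply_right, hz, hz']
      · rw [hσ, Equiv.swap_apply_of_ne_of_ne h1 h2]
  have htot : Wt (∑ j, T j) = w := by
    rw [Wt_sum]
    funext i
    rw [Finset.sum_apply]
    simp only [fun j => (hT j).1]
    simp
  refine ⟨∑ j, (T j).map (pG σ), ⟨fun j => (T j).map (pG σ), ?_, rfl⟩, ?_⟩
  · intro j
    refine ⟨?_, ?_⟩
    · rw [Wt_pG, (hT j).1]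
      funext i
      simp only [hwσ]
    · rw [Wt_pG, card_sp_comp, (hT j).2, Multiset.card_map]
  · -- the two blocks
    obtain ⟨g, hg, hgz⟩ := exists_of_Wt_ne (S := T (ρ z)) (i := z) (by
      rw [(hT _).1]; simp [hz])
    obtain ⟨h, hh, hhz⟩ := exists_of_Wt_ne (S := T (ρ z')) (i := z') (by
      rw [(hT _).1]; simp [hz'])
    obtain ⟨A, hA⟩ := Multiset.exists_cons_of_mem hg
    obtain ⟨B, hB⟩ := Multiset.exists_cons_of_mem hh
    have hsplit : ∑ j, T j = g ::ₘ h ::ₘ (A + B +
        ∑ j ∈ (Finset.univ.erase (ρ z)).erase (ρ z'), T j) := by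
      rw [← Finset.add_sum_erase Finset.univ T (Finset.mem_univ (ρ z)),
        ← Finset.add_sum_erase (Finset.univ.erase (ρ z)) T
          (Finset.mem_erase.mpr ⟨fun h => hne h.symm, Finset.mem_univ (ρ z')⟩), hA, hB]
      rw [← Multiset.singleton_add g, ← Multiset.singleton_add h, ← Multiset.singleton_add g,
        ← Multiset.singleton_add h]
      abel
    set R := A + B + ∑ j ∈ (Finset.univ.erase (ρ z)).erase (ρ z'), T j with hR
    have hW : ∀ i, g.1 i + (h.1 i + Wt R i) = w i := by
      intro i
      rw [← htot, hsplit, Wt_cons, Wt_cons]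
      rfl
    have hgz1 := hW z
    have hhz1 := hW z'
    have hRz : ∀ m ∈ R, m.1 z = 0 ∧ m.1 z' = 0 := by
      intro m hm
      have h1 := le_Wt hm z
      have h2 := le_Wt hm z'
      constructor <;> omega
    have hsum : ∑ j, (T j).map (pG σ) = (∑ j, T j).map (pG σ) := by
      have : ∀ A : Finset (Fin q), ∑ j ∈ A, (T j).map (pG σ) =
          (∑ j ∈ A, T j).map (pG σ) := by
        intro A
        induction A using Finset.induction with
        | empty => simp
        | insert a A ha ih => rw [Finset.sum_insert ha, Finset.sum_insert ha, ih,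
            Multiset.map_add]
      exact this _
    have hRm : R.map (pG σ) = R := by
      conv_rhs => rw [← Multiset.map_id R]
      apply Multiset.map_congr rfl
      intro m hm
      obtain ⟨h1, h2⟩ := hRz m hm
      apply Subtype.ext
      funext i
      show m.1 (σ i) = m.1 i
      by_cases h3 : i = z
      · rw [h3, hσ, Equiv.swap_apply_left, h1, h2]
      · by_cases h4 : i = z'
        · rw [h4, hσ, Equiv.swap_apply_right, h1, h2]
        · rw [hσ, Equiv.swap_apply_of_ne_of_ne h3 h4]
    rw [hsum, hsplit, Multiset.map_cons, Multiset.map_cons, hRm]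
    refine Relation.EqvGen.rel _ _ (Mv.mk _ _ _ _ _ ?_)
    funext i
    show g.1 i + h.1 i = g.1 (σ i) + h.1 (σ i)
    by_cases h3 : i = z
    · rw [h3, hσ, Equiv.swap_apply_left]
      omega
    · by_cases h4 : i = z'
      · rw [h4, hσ, Equiv.swap_apply_right]
        omega
      · rw [hσ, Equiv.swap_apply_of_ne_of_ne h3 h4]

end Pool.Agent.Helper65.PQ.FSW
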