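import Pool.Agent.Helper65.PQ.Bas

set_option autoImplicit false
set_option linter.unusedSectionVars false

/-!
PQ part L: at most `k r + 1` variables.
-/

namespace Pool.Agent.Helper65.PQ.L

open Finset Pool.Agent.Helper42.PQ Pool.Agent.Helper65.PQ

/-- PQ part L. -/
theorem main (hLL : S_LL) (hFD : S_FD) (hTR : S_TR) : S_L := by
  intro ι _ _ d r k w hr hd hw hsp
  obtain ⟨hT1, hT2⟩ := hTR ι (k * r + 1) d (r + 1) k w
  set w' : ι ⊕ Fin (k * r + 1) → ℕ := Sum.elim w (fun _ => 0) with hw'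
  have hsum : ∑ i, w' i = k * d := by
    rw [Fintype.sum_sum_type]
    simp [hw', hw]
  obtain ⟨D, hD1, hD2⟩ : ∃ D : Finset (ι ⊕ Fin (k * r + 1)), D.card = k * r + 1 ∧
      ∀ i, i ∉ D → w' i = 0 := by
    have h1 : ((sp w).map ⟨Sum.inl, Sum.inl_injective⟩ :
        Finset (ι ⊕ Fin (k * r + 1))) ⊆ Finset.univ := Finset.subset_univ _
    obtain ⟨D, hD1, hD2, hD3⟩ := Finset.exists_subsuperset_card_eq h1
      (n := k * r + 1) (by rw [Finset.card_map]; exact hsp)
      (by rw [Finset.card_univ, Fintype.card_sum, Fintype.card_fin]; omega)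
    refine ⟨D, hD3, ?_⟩
    intro i hi
    rcases i with i | i
    · by_contra h
      apply hi
      apply hD1
      rw [Finset.mem_map]
      exact ⟨i, by simp [sp]; exact h, rfl⟩
    · rfl
  refine ⟨hT1 ?_, fun hk => hT2 ?_⟩
  · exact hLL _ d r k D w' hr hd hD1 hD2 hsum
  · exact hFD _ d r k D w' (by omega) hk hD1 hD2 hsum

end Pool.Agent.Helper65.PQ.L
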