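import Pool.Agent.Helper65.PQ.Bas

set_option autoImplicit false
set_option linter.unusedSectionVars false

/-!
PQ part NODE: a common basic node.
-/

namespace Pool.Agent.Helper65.PQ.NODE

open Finset Pool.Agent.Helper42.PQ Pool.Agent.Helper65.PQ Pool.Agent.Helper65.PQ.TR

variable {ι : Type} [Fintype ι] [DecidableEq ι]

lemma bvec_sum {r d : ℕ} (w : ι → ℕ) (p : Finset ι × ι) (hp : Bn w r d p.1 p.2) :
    ∑ i, bvec w d p i = d := by
  obtain ⟨h1, h2, h3, h4⟩ := hp
  have h5 : ∀ i, bvec w d p i = (if i ∈ p.1 then w i else 0) +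
      (if i = p.2 then d - sg w p.1 else 0) := by
    intro i
    unfold bvec
    by_cases hi : i ∈ p.1
    · have : i ≠ p.2 := fun h => h2 (h ▸ hi)
      simp [hi, this]
    · simp [hi]
  simp only [h5]
  rw [Finset.sum_add_distrib, Finset.sum_ite_mem, Finset.univ_inter, Finset.sum_ite_eq']
  simp only [Finset.mem_univ, if_true]
  show sg w p.1 + _ = d
  omega

lemma bvec_supp {r d : ℕ} (w : ι → ℕ) (p : Finset ι × ι) (hp : Bn w r d p.1 p.2) :
    (Finset.univ.filter (fun i => bvec w d p i ≠ 0)).card ≤ r + 1 := by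
  obtain ⟨h1, h2, h3, h4⟩ := hp
  rw [← h1]
  refine le_trans (Finset.card_le_card ?_) (Finset.card_insert_le p.2 p.1)
  intro i hi
  have hi' := (Finset.mem_filter.mp hi).2
  rw [Finset.mem_insert]
  by_contra hcon
  push Not at hcon
  apply hi'
  simp [bvec, hcon.1, hcon.2]

/-- the generator of a basic node -/
def gen {r d : ℕ} (w : ι → ℕ) (p : Finset ι × ι) (hp : Bn w r d p.1 p.2) : G ι d (r + 1) :=
  ⟨bvec w d p, bvec_sum w p hp, bvec_supp w p hp⟩

lemma half (hL : S_L) {d r q : ℕ} (w : ι → ℕ) (ρ : ι → Fin q) (a : Fin q)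
    (p : Finset ι × ι) (S : Multiset (G ι d (r + 1))) (hr : 2 ≤ r) (hd : r + 1 ≤ d)
    (hp : Bn w r d p.1 p.2) (hp1 : p.1 ⊆ cls w ρ a) (hp2 : p.2 ∈ cls w ρ a) (hS : Cf w ρ S) :
    ∃ R : Multiset (G ι d (r + 1)), Cn S (gen w p hp ::ₘ R) := by
  obtain ⟨T, hT, rfl⟩ := hS
  have hd0 : 0 < d := by omega
  set v : ι → ℕ := fun i => if ρ i = a then w i else 0 with hv
  have hWv : Wt (T a) = v := (hT a).1
  have hcard := (hT a).2
  have hsum := sum_Wt (T a)
  rw [hWv] at hcard hsum
  have hle : ∀ i, bvec w d p i ≤ v i := by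
    intro i
    unfold bvec
    by_cases hi : i ∈ p.1
    · have := hp1 hi
      simp only [cls, Finset.mem_filter] at this
      simp [hi, hv, this.2]
    · by_cases h2 : i = p.2
      · simp only [cls, Finset.mem_filter] at hp2
        have h4 := hp.2.2.2
        rw [if_neg hi, if_pos h2]
        subst h2
        simp only [hv, hp2.2, if_true]
        omega
      · simp [hi, h2]
  have hb := bvec_sum w p hp
  have hvb : (fun i => (v - bvec w d p) i + bvec w d p i) = v := by
    funext i
    have := hle i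
    simp only [Pi.sub_apply]
    omega
  have hvs : ∑ i, (v - bvec w d p) i + d = (T a).card * d := by
    have e1 : ∑ i, (v - bvec w d p) i + ∑ i, bvec w d p i = ∑ i, v i := by
      rw [← Finset.sum_add_distrib]
      exact Finset.sum_congr rfl (fun i _ => congrFun hvb i)
    rw [hb] at e1
    rw [e1, hsum]
  obtain ⟨t, ht⟩ : ∃ t, (T a).card = t + 1 := by
    rcases Nat.eq_zero_or_pos (T a).card with h0 | h0
    · rw [h0] at hvs
      omega
    · exact ⟨(T a).card - 1, by omega⟩
  rw [ht] at hvs hcard hsum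
  have hvs' : ∑ i, (v - bvec w d p) i = t * d := by
    have : (t + 1) * d = t * d + d := by ring
    omega
  have hspv : (sp (v - bvec w d p)).card ≤ t * r + 1 := by
    have h1 : sp (v - bvec w d p) ⊆ sp v \ p.1 := by
      intro i hi
      simp only [sp, Finset.mem_filter, Finset.mem_univ, true_and, Pi.sub_apply] at hi
      rw [Finset.mem_sdiff]
      refine ⟨?_, ?_⟩
      · simp only [sp, Finset.mem_filter, Finset.mem_univ, true_and]
        omega
      · intro hip
        have := hp1 hip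
        simp only [cls, Finset.mem_filter] at this
        apply hi
        simp [bvec, hip, hv, this.2]
    have h2 : p.1 ⊆ sp v := by
      intro i hi
      have := hp1 hi
      simp only [cls, sp, Finset.mem_filter, Finset.mem_univ, true_and] at this
      simp only [sp, Finset.mem_filter, Finset.mem_univ, true_and, hv]
      simp [this.2, this.1]
    have h3 := Finset.card_le_card h1
    rw [Finset.card_sdiff_of_subset h2, hcard, hp.1] at h3
    have : (t + 1) * r = t * r + r := by ring
    omega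
  obtain ⟨S0, hS0, hS0w⟩ : ∃ S0 : Multiset (G ι d (r + 1)), S0.card = t ∧
      Wt S0 = v - bvec w d p := by
    rcases Nat.eq_zero_or_pos t with h0 | h0
    · subst h0
      refine ⟨0, rfl, ?_⟩
      rw [Wt_zero]
      funext i
      have h1 : ∑ i, (v - bvec w d p) i = 0 := by omega
      have h2 := (Finset.sum_eq_zero_iff.mp h1) i (Finset.mem_univ i)
      exact h2.symm
    · exact (hL ι d r t (v - bvec w d p) hr hd hvs' hspv).2 h0
  have hcn : Cn (T a) (gen w p hp ::ₘ S0) := by
    refine (hL ι d r (t + 1) v hr hd hsum (le_of_eq hcard)).1 _ _ ht ?_ hWv ?_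
    · rw [Multiset.card_cons, hS0]
    · rw [Wt_cons, hS0w]
      funext i
      rw [← congrFun hvb i]
      simp only [Pi.add_apply, gen]
      omega
  refine ⟨S0 + ∑ j ∈ Finset.univ.erase a, T j, ?_⟩
  rw [← Finset.add_sum_erase Finset.univ T (Finset.mem_univ a), ← Multiset.cons_add]
  exact Cn.add_right hcn _

lemma Cn.cons {d s : ℕ} {S T : Multiset (G ι d s)} (m : G ι d s) (h : Cn S T) :
    Cn (m ::ₘ S) (m ::ₘ T) := by
  rw [← Multiset.singleton_add m S, ← Multiset.singleton_add m T]
  exact Cn.add (Cn.refl _) h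

/-- PQ part NODE. -/
theorem main (hL : S_L) : S_NODE := by
  intro ι _ _ d r q q' k w ρ ρ' a b p S S' hr hd hw hyp hp h1 h2 h3 h4 hS hS'
  have hd0 : 0 < d := by omega
  obtain ⟨R, hR⟩ := half hL w ρ a p S hr hd hp h1 h2 hS
  obtain ⟨R', hR'⟩ := half hL w ρ' b p S' hr hd hp h3 h4 hS'
  have hW : ∀ {q : ℕ} (ρ : ι → Fin q) (S : Multiset (G ι d (r + 1))), Cf w ρ S → Wt S = w := by
    intro q ρ S hS
    obtain ⟨T, hT, rfl⟩ := hS
    rw [Wt_sum]
    funext i
    rw [Finset.sum_apply]
    simp only [fun j => (hT j).1]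
    simp
  have hrest : ∀ (S R : Multiset (G ι d (r + 1))), Wt S = w → Cn S (gen w p hp ::ₘ R) →
      R.card = k ∧ Wt R = w - bvec w d p := by
    intro S R hS hR
    have e1 : Wt (gen w p hp ::ₘ R) = w := by rw [← Wt_cn hR, hS]
    have e2 := sum_Wt (gen w p hp ::ₘ R)
    rw [e1, hw, Multiset.card_cons] at e2
    refine ⟨?_, ?_⟩
    · have := Nat.eq_of_mul_eq_mul_right hd0 e2
      omega
    · rw [Wt_cons] at e1
      funext i
      have := congrFun e1 i
      simp only [Pi.add_apply, gen] at this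
      simp only [Pi.sub_apply]
      omega
  obtain ⟨c1, c2⟩ := hrest S R (hW ρ S hS) hR
  obtain ⟨c1', c2'⟩ := hrest S' R' (hW ρ' S' hS') hR'
  exact Pool.Agent.Helper65.PQ.Cn.trans hR (Pool.Agent.Helper65.PQ.Cn.trans
    (Cn.cons _ (hyp R R' c1 c1' c2 c2')) (Pool.Agent.Helper65.PQ.Cn.symm hR'))

end Pool.Agent.Helper65.PQ.NODE
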