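import Pool.Agent.Helper65.PQ.Bas

set_option autoImplicit false
set_option linter.unusedSectionVars false

/-!
PQ part REAL: realisation of a grouping.
-/

namespace Pool.Agent.Helper65.PQ.REAL

open Finset Pool.Agent.Helper42.PQ Pool.Agent.Helper65.PQ

/-- PQ part REAL. -/
theorem main (hL : S_L) : S_REAL := by
  intro ι _ _ d r q w ρ hr hd hN
  have hd0 : 0 < d := by omega
  have key : ∀ j : Fin q, ∃ T : Multiset (G ι d (r + 1)),
      (Wt T = fun i => if ρ i = j then w i else 0) ∧ (sp (Wt T)).card = T.card * r + 1 := by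
    intro j
    obtain ⟨t, ht, hc, hs⟩ := hN j
    have hsp : sp (fun i => if ρ i = j then w i else 0) = cls w ρ j := by
      ext i
      simp only [sp, cls, Finset.mem_filter, Finset.mem_univ, true_and]
      by_cases h : ρ i = j <;> simp [h]
    have hsum : ∑ i, (fun i => if ρ i = j then w i else 0) i = t * d := by
      rw [← hs]
      unfold Pool.Agent.Helper46.PV.sg cls sp
      rw [Finset.filter_filter, Finset.sum_filter]
      apply Finset.sum_congr rfl
      intro i _
      by_cases h : ρ i = j <;> by_cases h2 : w i = 0 <;> simp [h, h2]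
    obtain ⟨T, hT, hw⟩ := (hL ι d r t (fun i => if ρ i = j then w i else 0) hr hd hsum
      (by rw [hsp, hc])).2 ht
    exact ⟨T, hw, by rw [hw, hsp, hc, hT]⟩
  choose T hT1 hT2 using key
  exact ⟨∑ j, T j, T, fun j => ⟨hT1 j, hT2 j⟩, rfl⟩

end Pool.Agent.Helper65.PQ.REAL
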