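import Pool.Agent.Helper65.PQ.Bas

set_option autoImplicit false
set_option linter.unusedSectionVars false

/-!
PQ part SAME: the same grouping.
-/

namespace Pool.Agent.Helper65.PQ.SAME

open Finset Pool.Agent.Helper42.PQ Pool.Agent.Helper65.PQ

/-- PQ part SAME. -/
theorem main (hL : S_L) : S_SAME := by
  intro ι _ _ d r q w ρ ρ' S S' hr hd hS hS' hρ
  obtain ⟨T, hT, rfl⟩ := hS
  obtain ⟨T', hT', rfl⟩ := hS'
  have hd0 : 0 < d := by omega
  apply Cn.sum
  intro j _
  have hj : Wt (T j) = Wt (T' j) := by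
    rw [(hT j).1, (hT' j).1]
    funext i
    by_cases hi : w i = 0
    · simp [hi]
    · rw [hρ i hi]
  have h1 := sum_Wt (T j)
  have h2 := sum_Wt (T' j)
  have h3 : (T j).card = (T' j).card := by
    have : (T j).card * d = (T' j).card * d := by rw [← h1, ← h2, hj]
    exact Nat.eq_of_mul_eq_mul_right hd0 this
  exact (hL ι d r (T j).card (Wt (T j)) hr hd h1 (le_of_eq (hT j).2)).1 (T j) (T' j) rfl
    h3.symm rfl hj.symm

end Pool.Agent.Helper65.PQ.SAME
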