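import Pool.Agent.Helper65.PQ.Bas

set_option autoImplicit false
set_option linter.unusedSectionVars false

/-!
PQ part SPL: few variables, reduction to one more variable.
-/

namespace Pool.Agent.Helper65.PQ.SPL

open Finset Pool.Agent.Helper42.PQ Pool.Agent.Helper65.PQ Pool.Agent.Helper65.PQ.TR

variable {ι : Type} [Fintype ι] [DecidableEq ι]

/-- push-forward of an exponent vector -/
def push (f : ι → ι) (b : ι → ℕ) : ι → ℕ := fun i => ∑ j, if f j = i then b j else 0

lemma push_add (f : ι → ι) (a b : ι → ℕ) : push f (a + b) = push f a + push f b := by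
  funext i
  simp only [push, Pi.add_apply]
  rw [← Finset.sum_add_distrib]
  apply Finset.sum_congr rfl
  intro j _
  split_ifs <;> simp

lemma push_zero (f : ι → ι) : push f (0 : ι → ℕ) = 0 := by
  funext i
  simp [push]

lemma push_push (f g : ι → ι) (b : ι → ℕ) : push f (push g b) = push (fun i => f (g i)) b := by
  funext i
  simp only [push]
  have h1 : ∀ j, (if f j = i then ∑ l, (if g l = j then b l else 0) else 0) =
      ∑ l, (if g l = j then (if f (g l) = i then b l else 0) else 0) := by
    intro j
    by_cases h : f j = i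
    · rw [if_pos h]
      apply Finset.sum_congr rfl
      intro l _
      by_cases h2 : g l = j
      · rw [if_pos h2, if_pos h2, if_pos (by rw [h2]; exact h)]
      · rw [if_neg h2, if_neg h2]
    · rw [if_neg h]
      symm
      apply Finset.sum_eq_zero
      intro l _
      by_cases h2 : g l = j
      · rw [if_pos h2, if_neg (by rw [h2]; exact h)]
      · rw [if_neg h2]
  simp only [h1]
  rw [Finset.sum_comm]
  apply Finset.sum_congr rfl
  intro l _
  rw [Finset.sum_ite_eq]
  simp

lemma push_sum (f : ι → ι) (b : ι → ℕ) : ∑ i, push f b i = ∑ i, b i := by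
  simp only [push]
  rw [Finset.sum_comm]
  apply Finset.sum_congr rfl
  intro l _
  rw [Finset.sum_ite_eq]
  simp

lemma push_supp (f : ι → ι) (b : ι → ℕ) :
    (Finset.univ.filter (fun i => push f b i ≠ 0)).card ≤
      (Finset.univ.filter (fun i => b i ≠ 0)).card := by
  refine le_trans (Finset.card_le_card ?_)
    (Finset.card_image_le (s := Finset.univ.filter (fun i => b i ≠ 0)) (f := f))
  intro i hi
  have hi' := (Finset.mem_filter.mp hi).2
  rw [Finset.mem_image]
  by_contra hcon
  push Not at hcon
  apply hi'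
  unfold push
  apply Finset.sum_eq_zero
  intro j _
  by_cases h : f j = i
  · rw [if_pos h]
    by_contra h2
    exact hcon j (by simp [h2]) h
  · rw [if_neg h]

/-- merging of variables on generators -/
def mg {d s : ℕ} (f : ι → ι) (a : G ι d s) : G ι d s :=
  ⟨push f a.1, by rw [push_sum]; exact a.2.1, le_trans (push_supp f a.1) a.2.2⟩

lemma Wt_mg {d s : ℕ} (f : ι → ι) (S : Multiset (G ι d s)) :
    Wt (S.map (mg f)) = push f (Wt S) := by
  induction S using Multiset.induction with
  | empty => simp [Wt_zero, push_zero]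
  | cons a S ih =>
    rw [Multiset.map_cons, Wt_cons, ih, Wt_cons, push_add]
    rfl

lemma Cn_mg {d s : ℕ} (f : ι → ι) {S T : Multiset (G ι d s)} (h : Cn S T) :
    Cn (S.map (mg f)) (T.map (mg f)) := by
  induction h with
  | rel x y h =>
    obtain ⟨u, v, u', v', A, h⟩ := h
    simp only [Multiset.map_cons]
    refine Relation.EqvGen.rel _ _ (Mv.mk _ _ _ _ _ ?_)
    show push f u.1 + push f v.1 = push f u'.1 + push f v'.1
    rw [← push_add, ← push_add, h]
  | refl x => exact Cn.refl _
  | symm x y _ ih => exact Cn.symm ih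
  | trans x y z _ _ ih1 ih2 => exact Cn.trans ih1 ih2

lemma mg_mg {d s : ℕ} (f g : ι → ι) (S : Multiset (G ι d s)) :
    (S.map (mg g)).map (mg f) = S.map (mg (fun i => f (g i))) := by
  rw [Multiset.map_map]
  apply Multiset.map_congr rfl
  intro a _
  apply Subtype.ext
  exact push_push f g a.1

/-- the elementary merging `z ↦ v` -/
def fz (v z : ι) : ι → ι := Function.update id z v

lemma push_fz (v z : ι) (hvz : v ≠ z) (b : ι → ℕ) :
    push (fz v z) b = fun i => if i = v then b v + b z else if i = z then 0 else b i := by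
  funext i
  have h1 : ∀ j, (if fz v z j = i then b j else 0) =
      (if j = i then (if i = z then 0 else b i) else 0) + (if j = z then (if i = v then b z else 0)
        else 0) := by
    intro j
    unfold fz
    by_cases hj : j = z
    · subst hj
      rw [Function.update_self]
      by_cases h2 : i = v
      · subst h2
        simp [hvz, hvz.symm]
      · by_cases h3 : j = i
        · simp [h2, h3]
          intro h4; exact absurd h4.symm h2
        · simp [h2, h3]
          intro h4; exact absurd h4.symm h2
    · rw [Function.update_of_ne hj]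
      simp only [id, hj, if_false, add_zero]
      by_cases h3 : j = i
      · subst h3
        simp [hj]
      · simp [h3]
  unfold push
  simp only [h1]
  rw [Finset.sum_add_distrib, Finset.sum_ite_eq', Finset.sum_ite_eq']
  simp only [Finset.mem_univ, if_true]
  by_cases h2 : i = v
  · subst h2
    simp [hvz]
  · simp [h2]

lemma mg_id {d s : ℕ} (v z : ι) (hvz : v ≠ z) (a : G ι d s) (h : a.1 z = 0) :
    mg (fz v z) a = a := by
  apply Subtype.ext
  show push (fz v z) a.1 = a.1
  rw [push_fz v z hvz]
  funext i
  by_cases h1 : i = v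
  · simp [h1, h]
  · by_cases h2 : i = z
    · subst h2
      simp [h1, h]
    · simp [h1, h2]

/-- splitting `p` letters of `v` off to the new variable `z` -/
def tw (w : ι → ℕ) (v z : ι) (p : ℕ) : ι → ℕ :=
  fun i => if i = v then w v - p else if i = z then p else w i

lemma push_tw (w : ι → ℕ) (v z : ι) (p : ℕ) (hvz : v ≠ z) (hz : w z = 0) (hp : p ≤ w v) :
    push (fz v z) (tw w v z p) = w := by
  rw [push_fz v z hvz]
  funext i
  by_cases h1 : i = v
  · subst h1
    simp only [if_true, tw, hvz.symm, if_false]
    omega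
  · by_cases h2 : i = z
    · subst h2
      simp [h1, hz]
    · simp [h1, h2, tw]

lemma tw_sum (w : ι → ℕ) (v z : ι) (p : ℕ) (hvz : v ≠ z) (hz : w z = 0) (hp : p ≤ w v) :
    ∑ i, tw w v z p i = ∑ i, w i := by
  rw [← push_sum (fz v z) (tw w v z p), push_tw w v z p hvz hz hp]

lemma mem_sp (x : ι → ℕ) (i : ι) : i ∈ sp x ↔ x i ≠ 0 := by simp [sp]

lemma tw_sp (w : ι → ℕ) (v z : ι) (p : ℕ) (hvz : v ≠ z) (hz : w z = 0) (hp0 : 0 < p)
    (hp : p < w v) : (sp (tw w v z p)).card = (sp w).card + 1 := by
  have h1 : sp (tw w v z p) = insert z (sp w) := by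
    ext i
    rw [Finset.mem_insert, mem_sp, mem_sp]
    unfold tw
    by_cases h1 : i = v
    · subst h1
      simp only [if_true, hvz, false_or]
      omega
    · by_cases h2 : i = z
      · subst h2
        simp only [h1, if_false, if_true, true_or, iff_true]
        omega
      · simp [h1, h2]
  rw [h1, Finset.card_insert_of_notMem]
  simp [sp, hz]

lemma tw_comm (w : ι → ℕ) (v z1 u z2 : ι) (p p' : ℕ) (h1 : v ≠ z1) (h2 : v ≠ z2)
    (h3 : u ≠ z1) (h4 : u ≠ z2) (h5 : z1 ≠ z2) :
    tw (tw w v z1 p) u z2 p' = tw (tw w u z2 p') v z1 p := by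
  funext i
  unfold tw
  by_cases hu : i = u
  · subst hu
    by_cases hv : i = v
    · subst hv
      simp only [if_true]
      omega
    · simp [hv, h3, Ne.symm hv]
  · by_cases hv : i = v
    · subst hv
      simp [hu, h2, h1, Ne.symm hu]
    · by_cases hz1 : i = z1
      · subst hz1
        simp [hu, hv, h5]
      · by_cases hz2 : i = z2
        · subst hz2
          simp [hu, hv, hz1]
        · simp [hu, hv, hz1, hz2]

lemma uncut {d s : ℕ} (S : Multiset (G ι d s)) (r : ℕ)
    (h : ∀ a ∈ S, ∀ i, a.1 i ≠ 0 → a.1 i = Wt S i) (hr : ∀ a ∈ S, r ≤ (sp a.1).card) :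
    S.card * r ≤ (sp (Wt S)).card := by
  induction S using Multiset.induction with
  | empty => simp
  | cons a S ih =>
    have h1 : ∀ b ∈ S, ∀ i, b.1 i ≠ 0 → b.1 i = Wt S i := by
      intro b hb i hi
      have e1 := h b (Multiset.mem_cons_of_mem hb) i hi
      have e2 := le_Wt hb i
      rw [Wt_cons] at e1
      simp only [Pi.add_apply] at e1
      omega
    have h2 := ih h1 (fun b hb => hr b (Multiset.mem_cons_of_mem hb))
    have h3 := hr a (Multiset.mem_cons_self a S)
    have h4 : Disjoint (sp a.1) (sp (Wt S)) := by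
      rw [Finset.disjoint_left]
      intro i h5 h6
      simp only [sp, Finset.mem_filter, Finset.mem_univ, true_and] at h5 h6
      have e1 := h a (Multiset.mem_cons_self a S) i h5
      rw [Wt_cons] at e1
      simp only [Pi.add_apply] at e1
      omega
    have h5 : sp (Wt (a ::ₘ S)) = sp a.1 ∪ sp (Wt S) := by
      ext i
      rw [Wt_cons]
      simp only [sp, Finset.mem_filter, Finset.mem_univ, true_and, Finset.mem_union,
        Pi.add_apply]
      omega
    rw [h5, Finset.card_union_of_disjoint h4, Multiset.card_cons]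
    have : (S.card + 1) * r = S.card * r + r := by ring
    omega

/-- merging of a whole multiset, all of whose members vanish at `z` except for a part `B`
on which `v` and `z` have been swapped -/
lemma split1 {d s : ℕ} (B C : Multiset (G ι d s)) (v z : ι) (hvz : v ≠ z)
    (hz : Wt (B + C) z = 0) :
    Wt (B.map (pG (Equiv.swap v z)) + C) = tw (Wt (B + C)) v z (Wt B v) ∧
    (B.map (pG (Equiv.swap v z)) + C).map (mg (fz v z)) = B + C := by
  rw [Wt_add] at hz
  simp only [Pi.add_apply] at hz
  refine ⟨?_, ?_⟩
  · rw [Wt_add, Wt_pG, Wt_add]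
    funext i
    simp only [Pi.add_apply, tw]
    by_cases h1 : i = v
    · subst h1
      rw [Equiv.swap_apply_left]
      simp only [if_true]
      omega
    · by_cases h2 : i = z
      · subst h2
        rw [Equiv.swap_apply_right]
        simp only [h1, if_false, if_true]
        omega
      · rw [Equiv.swap_apply_of_ne_of_ne h1 h2]
        simp [h1, h2]
  · rw [Multiset.map_add, Multiset.map_map]
    congr 1
    · conv_rhs => rw [← Multiset.map_id B]
      apply Multiset.map_congr rfl
      intro a ha
      have haz : a.1 z = 0 := by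
        have := le_Wt ha z
        omega
      apply Subtype.ext
      show push (fz v z) (fun i => a.1 (Equiv.swap v z i)) = a.1
      rw [push_fz v z hvz]
      funext i
      by_cases h1 : i = v
      · subst h1
        rw [Equiv.swap_apply_left, Equiv.swap_apply_right]
        simp [haz]
      · by_cases h2 : i = z
        · subst h2
          simp [h1, haz]
        · rw [Equiv.swap_apply_of_ne_of_ne h1 h2]
          simp [h1, h2]
    · conv_rhs => rw [← Multiset.map_id C]
      apply Multiset.map_congr rfl
      intro a ha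
      exact mg_id v z hvz a (by have := le_Wt ha z; omega)

/-- one letter of `v` in `a` is sent to `z` -/
lemma split2 {d r : ℕ} (a : G ι d (r + 1)) (A : Multiset (G ι d (r + 1))) (v z : ι)
    (hvz : v ≠ z) (hz : Wt (a ::ₘ A) z = 0) (hc : (sp a.1).card ≤ r) (hv : 2 ≤ a.1 v) :
    ∃ a' : G ι d (r + 1), Wt (a' ::ₘ A) = tw (Wt (a ::ₘ A)) v z 1 ∧
      (a' ::ₘ A).map (mg (fz v z)) = a ::ₘ A := by
  rw [Wt_cons] at hz
  simp only [Pi.add_apply] at hz
  have haz : a.1 z = 0 := by omega
  refine ⟨⟨tw a.1 v z 1, ?_, ?_⟩, ?_, ?_⟩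
  · rw [tw_sum a.1 v z 1 hvz haz (by omega)]
    exact a.2.1
  · have := tw_sp a.1 v z 1 hvz haz (by omega) (by omega)
    unfold sp at this hc
    omega
  · rw [Wt_cons, Wt_cons]
    funext i
    simp only [Pi.add_apply, tw]
    by_cases h1 : i = v
    · subst h1
      simp only [if_true]
      omega
    · by_cases h2 : i = z
      · subst h2
        simp only [h1, if_false, if_true]
        omega
      · simp [h1, h2]
  · rw [Multiset.map_cons]
    congr 1
    · apply Subtype.ext
      exact push_tw a.1 v z 1 hvz haz (by omega)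
    · conv_rhs => rw [← Multiset.map_id A]
      apply Multiset.map_congr rfl
      intro b hb
      exact mg_id v z hvz b (by have := le_Wt hb z; omega)

lemma step {d r k : ℕ} (w : ι → ℕ) (S : Multiset (G ι d (r + 1))) (z : ι) (hr : 2 ≤ r)
    (hd : r + 1 ≤ d) (hsp : (sp w).card + 2 ≤ k * r + 1) (hS : S.card = k) (hw : Wt S = w)
    (hz : w z = 0) :
    ∃ (v : ι) (p : ℕ) (S' : Multiset (G ι d (r + 1))), 0 < p ∧ 2 * p ≤ w v ∧ S'.card = k ∧
      Wt S' = tw w v z p ∧ S'.map (mg (fz v z)) = S := by
  by_cases hcut : ∃ a ∈ S, ∃ v, a.1 v ≠ 0 ∧ a.1 v ≠ w v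
  · obtain ⟨a, ha, v, hv1, hv2⟩ := hcut
    obtain ⟨A, rfl⟩ := Multiset.exists_cons_of_mem ha
    have hvz : v ≠ z := by
      rintro rfl
      have := le_Wt ha v
      rw [hw] at this
      omega
    have hWv : a.1 v + Wt A v = w v := by
      rw [← hw, Wt_cons]; rfl
    have hsg : a ::ₘ A = {a} + A := (Multiset.singleton_add a A).symm
    have hWa : Wt ({a} : Multiset (G ι d (r + 1))) = a.1 := by
      have := Wt_cons a (0 : Multiset (G ι d (r + 1)))
      rw [Wt_zero, add_zero] at this
      exact this
    by_cases h2 : 2 * a.1 v ≤ w v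
    · have h3 := split1 {a} A v z hvz (by rw [← hsg, hw]; exact hz)
      rw [← hsg, hw, hWa] at h3
      refine ⟨v, a.1 v, _, by omega, h2, ?_, h3.1, h3.2⟩
      rw [Multiset.card_add, Multiset.card_map, ← Multiset.card_add, ← hsg, hS]
    · have hsg' : a ::ₘ A = A + {a} := hsg.trans (add_comm _ _)
      have h3 := split1 A {a} v z hvz (by rw [← hsg', hw]; exact hz)
      rw [← hsg', hw] at h3
      refine ⟨v, Wt A v, _, by omega, by omega, ?_, h3.1, h3.2⟩
      rw [Multiset.card_add, Multiset.card_map, ← Multiset.card_add, ← hsg', hS]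
  · push Not at hcut
    obtain ⟨a, ha, hac⟩ : ∃ a ∈ S, (sp a.1).card < r := by
      by_contra hcon
      push Not at hcon
      have := uncut S r (fun a ha i hi => by rw [hw]; exact hcut a ha i hi) hcon
      rw [hS, hw] at this
      omega
    obtain ⟨A, rfl⟩ := Multiset.exists_cons_of_mem ha
    obtain ⟨v, hv⟩ : ∃ v, 2 ≤ a.1 v := by
      by_contra hcon
      push Not at hcon
      have h1 : ∑ i, a.1 i ≤ (sp a.1).card := by
        unfold sp
        rw [Finset.card_filter]
        apply Finset.sum_le_sum
        intro i _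
        have := hcon i
        by_cases h2 : a.1 i = 0
        · simp [h2]
        · simp [h2]
          omega
      rw [a.2.1] at h1
      omega
    have hwv : a.1 v = w v := hcut a ha v (by omega)
    have hvz : v ≠ z := by
      rintro rfl
      omega
    obtain ⟨a', h1, h2⟩ := split2 a A v z hvz (by rw [hw]; exact hz) (by omega) hv
    rw [hw] at h1
    refine ⟨v, 1, a' ::ₘ A, by omega, by omega, ?_, h1, h2⟩
    rw [Multiset.card_cons, ← hS, Multiset.card_cons]

/-- PQ part SPL. -/
theorem main (hFD : S_FD) : S_SPL := by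
  intro ι _ _ d r k D w hr hk hd hD hwD hw hsp hyp S T hS hT hwS hwT
  -- two new variables
  have hspD : sp w ⊆ D := by
    intro i hi
    by_contra h
    simp only [sp, Finset.mem_filter, Finset.mem_univ, true_and] at hi
    exact hi (hwD i h)
  have hcard : 2 ≤ (D \ sp w).card := by
    rw [Finset.card_sdiff_of_subset hspD]
    omega
  obtain ⟨z1, hz1, z2, hz2, h12⟩ := Finset.one_lt_card.mp hcard
  rw [Finset.mem_sdiff] at hz1 hz2
  have hwz1 : w z1 = 0 := by
    by_contra h
    exact hz1.2 (by simp [sp, h])
  have hwz2 : w z2 = 0 := by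
    by_contra h
    exact hz2.2 (by simp [sp, h])
  obtain ⟨v, p, S', hp0, hp, hS'c, hS'w, hS'm⟩ := step w S z1 hr hd hsp hS hwS hwz1
  obtain ⟨u, p', T', hp0', hp', hT'c, hT'w, hT'm⟩ := step w T z2 hr hd hsp hT hwT hwz2
  have hv1 : v ≠ z1 := by rintro rfl; omega
  have hv2 : v ≠ z2 := by rintro rfl; omega
  have hu1 : u ≠ z1 := by rintro rfl; omega
  have hu2 : u ≠ z2 := by rintro rfl; omega
  have hvD : v ∈ D := by
    by_contra h
    have := hwD v h
    omega
  have huD : u ∈ D := by
    by_contra h
    have := hwD u h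
    omega
  have hc := tw_comm w v z1 u z2 p p' hv1 hv2 hu1 hu2 h12
  -- the weight with both new variables
  have h1z : tw w v z1 p z2 = 0 := by
    simp [tw, hv2.symm, h12.symm, hwz2]
  have h1u : p' ≤ tw w v z1 p u := by
    unfold tw
    by_cases h : u = v
    · subst h
      simp only [if_true]
      omega
    · simp only [h, if_false, hu1]
      omega
  have h2z : tw w u z2 p' z1 = 0 := by
    simp [tw, hu1.symm, h12, hwz1]
  have h2v : p ≤ tw w u z2 p' v := by
    unfold tw
    by_cases h : v = u
    · subst h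
      simp only [if_true]
      omega
    · simp only [h, if_false, hv2]
      omega
  obtain ⟨C, hCc, hCw⟩ := hFD ι d r k D (tw (tw w v z1 p) u z2 p') (by omega) (by omega) hD
    (by
      intro i hi
      have e1 : i ≠ u := fun h => hi (h ▸ huD)
      have e2 : i ≠ z2 := fun h => hi (h ▸ hz2.1)
      have e3 : i ≠ v := fun h => hi (h ▸ hvD)
      have e4 : i ≠ z1 := fun h => hi (h ▸ hz1.1)
      simp [tw, e1, e2, e3, e4, hwD i hi])
    (by rw [tw_sum _ u z2 p' hu2 h1z h1u, tw_sum w v z1 p hv1 hwz1 (by omega), hw])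
  have hA : Cn S' (C.map (mg (fz u z2))) := by
    refine hyp (tw w v z1 p) ?_ ?_ ?_ S' _ hS'c (by rw [Multiset.card_map, hCc]) hS'w ?_
    · intro i hi
      have e3 : i ≠ v := fun h => hi (h ▸ hvD)
      have e4 : i ≠ z1 := fun h => hi (h ▸ hz1.1)
      simp [tw, e3, e4, hwD i hi]
    · rw [tw_sum w v z1 p hv1 hwz1 (by omega), hw]
    · exact tw_sp w v z1 p hv1 hwz1 hp0 (by omega)
    · rw [Wt_mg, hCw, push_tw _ u z2 p' hu2 h1z h1u]
  have hB : Cn T' (C.map (mg (fz v z1))) := by
    refine hyp (tw w u z2 p') ?_ ?_ ?_ T' _ hT'c (by rw [Multiset.card_map, hCc]) hT'w ?_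
    · intro i hi
      have e3 : i ≠ u := fun h => hi (h ▸ huD)
      have e4 : i ≠ z2 := fun h => hi (h ▸ hz2.1)
      simp [tw, e3, e4, hwD i hi]
    · rw [tw_sum w u z2 p' hu2 hwz2 (by omega), hw]
    · exact tw_sp w u z2 p' hu2 hwz2 hp0' (by omega)
    · rw [Wt_mg, hCw, hc, push_tw _ v z1 p hv1 h2z h2v]
  have hA' := Cn_mg (fz v z1) hA
  have hB' := Cn_mg (fz u z2) hB
  rw [hS'm, mg_mg] at hA'
  rw [hT'm, mg_mg] at hB'
  have hf : (fun i => fz v z1 (fz u z2 i)) = (fun i => fz u z2 (fz v z1 i)) := by
    funext i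
    unfold fz
    by_cases e1 : i = z1
    · subst e1
      rw [Function.update_of_ne h12]
      simp only [id, Function.update_self]
      rw [Function.update_of_ne hv2]
      rfl
    · by_cases e2 : i = z2
      · subst e2
        rw [Function.update_self, Function.update_of_ne hu1, Function.update_of_ne e1]
        simp only [id, Function.update_self]
      · rw [Function.update_of_ne e2, Function.update_of_ne e1]
        simp only [id]
        rw [Function.update_of_ne e2, Function.update_of_ne e1]
  rw [hf] at hA'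
  exact Cn.trans hA' (Cn.symm hB')

end Pool.Agent.Helper65.PQ.SPL
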