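import Pool.Agent.Helper65.PQ.Bas

set_option autoImplicit false
set_option linter.unusedSectionVars false

/-!
PQ part SPOS: groupings which agree on the variables of weight at least two.
-/

namespace Pool.Agent.Helper65.PQ.SPOS

open Finset Pool.Agent.Helper42.PQ Pool.Agent.Helper65.PQ

variable {ι : Type} [Fintype ι] [DecidableEq ι]

lemma cnt {q : ℕ} (w : ι → ℕ) (ρ : ι → Fin q) (b : Fin q) :
    (sp (fun i => if ρ i = b then w i else 0)).card =
      (Finset.univ.filter (fun i => w i = 1 ∧ ρ i = b)).card +
      (Finset.univ.filter (fun i => 2 ≤ w i ∧ ρ i = b)).card ∧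
    ∑ i, (fun i => if ρ i = b then w i else 0) i =
      (Finset.univ.filter (fun i => w i = 1 ∧ ρ i = b)).card +
      ∑ i ∈ Finset.univ.filter (fun i => 2 ≤ w i ∧ ρ i = b), w i := by
  refine ⟨?_, ?_⟩
  · rw [← Finset.card_union_of_disjoint]
    · congr 1
      ext i
      simp only [sp, Finset.mem_filter, Finset.mem_univ, true_and, Finset.mem_union]
      by_cases h : ρ i = b
      · simp only [h, if_true, and_true]
        omega
      · simp [h]
    · rw [Finset.disjoint_left]
      intro i h1 h2
      simp only [Finset.mem_filter, Finset.mem_univ, true_and] at h1 h2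
      omega
  · rw [Finset.card_filter, Finset.sum_filter, ← Finset.sum_add_distrib]
    apply Finset.sum_congr rfl
    intro i _
    by_cases h : ρ i = b
    · simp only [h, if_true, and_true]
      by_cases h1 : w i = 1
      · simp [h1]
      · by_cases h2 : 2 ≤ w i
        · simp [h1, h2]
        · have : w i = 0 := by omega
          simp [this]
    · simp [h]

lemma same_ones {d r q : ℕ} (hd : r + 1 ≤ d) (w : ι → ℕ) (ρ ρ' : ι → Fin q)
    (T T' : Fin q → Multiset (G ι d (r + 1))) (hT : Grp w ρ T) (hT' : Grp w ρ' T')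
    (h : ∀ i, 2 ≤ w i → ρ i = ρ' i) (b : Fin q) :
    (Finset.univ.filter (fun i => w i = 1 ∧ ρ i = b)).card =
      (Finset.univ.filter (fun i => w i = 1 ∧ ρ' i = b)).card := by
  have h1 := cnt w ρ b
  have h2 := cnt w ρ' b
  have e1 := (hT b).2
  have e2 := (hT' b).2
  have f1 := sum_Wt (T b)
  have f2 := sum_Wt (T' b)
  rw [(hT b).1] at e1 f1
  rw [(hT' b).1] at e2 f2
  have hh : Finset.univ.filter (fun i => 2 ≤ w i ∧ ρ i = b) =
      Finset.univ.filter (fun i => 2 ≤ w i ∧ ρ' i = b) := by
    ext i
    simp only [Finset.mem_filter, Finset.mem_univ, true_and]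
    constructor
    · rintro ⟨h3, h4⟩
      exact ⟨h3, by rw [← h i h3]; exact h4⟩
    · rintro ⟨h3, h4⟩
      exact ⟨h3, by rw [h i h3]; exact h4⟩
  rw [hh] at h1
  rw [h1.1] at e1
  rw [h1.2] at f1
  rw [h2.1] at e2
  rw [h2.2] at f2
  set x := (Finset.univ.filter (fun i => w i = 1 ∧ ρ i = b)).card
  set y := (Finset.univ.filter (fun i => w i = 1 ∧ ρ' i = b)).card
  set H := (Finset.univ.filter (fun i => 2 ≤ w i ∧ ρ' i = b)).card
  set W := ∑ i ∈ Finset.univ.filter (fun i => 2 ≤ w i ∧ ρ' i = b), w i
  set t := (T b).card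
  set t' := (T' b).card
  obtain ⟨c, rfl⟩ : ∃ c, d = r + 1 + c := ⟨d - (r + 1), by omega⟩
  have g1 : t * (r + 1 + c) = t * r + t * (1 + c) := by ring
  have g2 : t' * (r + 1 + c) = t' * r + t' * (1 + c) := by ring
  have g3 : t * (1 + c) = t' * (1 + c) := by omega
  have g4 : t = t' := Nat.eq_of_mul_eq_mul_right (by omega) g3
  rw [g4] at e1
  omega

/-- PQ part SPOS. -/
theorem main (hF : S_FSW) (hS : S_SAME) : S_SPOS := by
  intro ι _ _ d r q w ρ ρ' S S' hr hd hC hC' hheavy
  have key : ∀ n : ℕ, ∀ (ρ : ι → Fin q) (S : Multiset (G ι d (r + 1))),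
      (Finset.univ.filter (fun i => w i = 1 ∧ ρ i ≠ ρ' i)).card = n →
      Cf w ρ S → (∀ i, 2 ≤ w i → ρ i = ρ' i) → Cn S S' := by
    intro n
    induction n using Nat.strong_induction_on with
    | _ n ih =>
      intro ρ S hn hC hheavy
      by_cases h0 : ∃ z, w z = 1 ∧ ρ z ≠ ρ' z
      · obtain ⟨z, hz, hzρ⟩ := h0
        obtain ⟨T, hT, hST⟩ := id hC
        obtain ⟨T', hT', hST'⟩ := id hC'
        have hcard := same_ones hd w ρ ρ' T T' hT hT' hheavy (ρ' z)
        obtain ⟨z', hz'1, hz'2⟩ : ∃ z', (w z' = 1 ∧ ρ z' = ρ' z) ∧ ρ' z' ≠ ρ' z := by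
          by_contra hcon
          push Not at hcon
          have hsub : Finset.univ.filter (fun i => w i = 1 ∧ ρ i = ρ' z) ⊂
              Finset.univ.filter (fun i => w i = 1 ∧ ρ' i = ρ' z) := by
            rw [Finset.ssubset_iff_of_subset]
            · refine ⟨z, ?_, ?_⟩
              · simp [hz]
              · simp only [Finset.mem_filter, Finset.mem_univ, true_and, not_and]
                intro _
                exact hzρ
            · intro i hi
              simp only [Finset.mem_filter, Finset.mem_univ, true_and] at hi ⊢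
              exact ⟨hi.1, hcon i hi⟩
          have := Finset.card_lt_card hsub
          omega
        have hne : ρ z ≠ ρ z' := by rw [hz'1.2]; exact hzρ
        obtain ⟨S1, hS1, hS1c⟩ := hF ι d r q w ρ z z' S hz hz'1.1 hne hC
        refine Cn.trans hS1c ?_
        have hlt : (Finset.univ.filter (fun i => w i = 1 ∧
            ρ (Equiv.swap z z' i) ≠ ρ' i)).card < n := by
          rw [← hn]
          apply Finset.card_lt_card
          rw [Finset.ssubset_iff_of_subset]
          · refine ⟨z, ?_, ?_⟩
            · simp [hz, hzρ]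
            · simp [hz'1.2]
          · intro i hi
            simp only [Finset.mem_filter, Finset.mem_univ, true_and] at hi ⊢
            refine ⟨hi.1, ?_⟩
            by_cases h1 : i = z
            · rw [h1]; exact hzρ
            · by_cases h2 : i = z'
              · rw [h2, hz'1.2]; exact fun h => hz'2 h.symm
              · rw [Equiv.swap_apply_of_ne_of_ne h1 h2] at hi
                exact hi.2
        refine ih _ hlt _ S1 rfl hS1 ?_
        intro i hi
        have h1 : i ≠ z := by rintro rfl; omega
        have h2 : i ≠ z' := by rintro rfl; omega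
        rw [Equiv.swap_apply_of_ne_of_ne h1 h2]
        exact hheavy i hi
      · push Not at h0
        refine hS ι d r q w ρ ρ' S S' hr hd hC hC' ?_
        intro i hi
        by_cases h1 : w i = 1
        · exact h0 i h1
        · exact hheavy i (by omega)
  exact key _ ρ S rfl hC hheavy

end Pool.Agent.Helper65.PQ.SPOS
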