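import Pool.Agent.Helper42.PQ.Spec

set_option autoImplicit false
set_option linter.unusedSectionVars false

/-!
PQ part TR: dropping unused variables.
-/

namespace Pool.Agent.Helper65.PQ.TR

open Finset Pool.Agent.Helper42.PQ

section
variable {ι : Type} [Fintype ι] [DecidableEq ι]

lemma Wt_cons {d s : ℕ} (u : G ι d s) (A : Multiset (G ι d s)) :
    Wt (u ::ₘ A) = u.1 + Wt A := by
  simp [Wt]

lemma Wt_mv {d s : ℕ} {S T : Multiset (G ι d s)} (h : Mv S T) : Wt S = Wt T := by
  obtain ⟨u, v, u', v', A, h⟩ := h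
  simp only [Wt_cons]
  rw [← add_assoc, ← add_assoc, h]

lemma Wt_cn {d s : ℕ} {S T : Multiset (G ι d s)} (h : Cn S T) : Wt S = Wt T := by
  induction h with
  | rel x y h => exact Wt_mv h
  | refl x => rfl
  | symm x y _ ih => exact ih.symm
  | trans x y z _ _ ih1 ih2 => exact ih1.trans ih2

lemma le_Wt {d s : ℕ} {S : Multiset (G ι d s)} {a : G ι d s} (h : a ∈ S) (i : ι) :
    a.1 i ≤ Wt S i := by
  obtain ⟨T, rfl⟩ := Multiset.exists_cons_of_mem h
  rw [Wt_cons]
  simp

variable (m : ℕ)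

/-- extension by zero -/
def E {d s : ℕ} (a : G ι d s) : G (ι ⊕ Fin m) d s :=
  ⟨Sum.elim a.1 (fun _ => 0), by
    refine ⟨?_, ?_⟩
    · rw [Fintype.sum_sum_type]
      simp [a.2.1]
    · refine le_trans (le_of_eq ?_) a.2.2
      have : (Finset.univ.filter (fun i : ι ⊕ Fin m => Sum.elim a.1 (fun _ => 0) i ≠ 0)) =
          (Finset.univ.filter (fun i => a.1 i ≠ 0)).map ⟨Sum.inl, Sum.inl_injective⟩ := by
        ext i
        rcases i with i | i <;> simp
      rw [this, Finset.card_map]⟩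

lemma E_inj {d s : ℕ} : Function.Injective (E (ι := ι) (d := d) (s := s) m) := by
  intro a b h
  apply Subtype.ext
  funext i
  have := congrArg (fun g => g.1 (Sum.inl i)) h
  simpa [E] using this

lemma Wt_map {d s : ℕ} (S : Multiset (G ι d s)) :
    Wt (S.map (E m)) = Sum.elim (Wt S) (fun _ => 0) := by
  induction S using Multiset.induction with
  | empty =>
    funext i
    rcases i with i | i <;> simp [Wt]
  | cons a S ih =>
    rw [Multiset.map_cons, Wt_cons, ih, Wt_cons]
    funext i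
    rcases i with i | i <;> simp [E]

lemma lift1 {d s : ℕ} (g : G (ι ⊕ Fin m) d s) (h : ∀ j, g.1 (Sum.inr j) = 0) :
    ∃ a : G ι d s, E m a = g := by
  refine ⟨⟨fun i => g.1 (Sum.inl i), ?_, ?_⟩, ?_⟩
  · have := g.2.1
    rw [Fintype.sum_sum_type] at this
    simpa [h] using this
  · refine le_trans ?_ g.2.2
    rw [← Finset.card_map ⟨Sum.inl, Sum.inl_injective⟩]
    apply Finset.card_le_card
    intro i hi
    simp only [Finset.mem_map, Finset.mem_filter, Finset.mem_univ, true_and] at hi ⊢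
    obtain ⟨j, hj, rfl⟩ := hi
    exact hj
  · apply Subtype.ext
    funext i
    rcases i with i | i
    · simp [E]
    · simp [E, h]

lemma liftS {d s : ℕ} (S' : Multiset (G (ι ⊕ Fin m) d s)) (h : ∀ j, Wt S' (Sum.inr j) = 0) :
    ∃ S : Multiset (G ι d s), S.map (E m) = S' := by
  induction S' using Multiset.induction with
  | empty => exact ⟨0, rfl⟩
  | cons a S' ih =>
    have h1 : ∀ j, a.1 (Sum.inr j) = 0 ∧ Wt S' (Sum.inr j) = 0 := by
      intro j
      have := h j
      rw [Wt_cons] at this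
      simp only [Pi.add_apply] at this
      omega
    obtain ⟨S, hS⟩ := ih (fun j => (h1 j).2)
    obtain ⟨b, hb⟩ := lift1 m a (fun j => (h1 j).1)
    exact ⟨b ::ₘ S, by rw [Multiset.map_cons, hS, hb]⟩

lemma map_cons_inv {α β : Type} (f : α → β) {S : Multiset α} {b : β} {t : Multiset β}
    (h : S.map f = b ::ₘ t) : ∃ a S1, S = a ::ₘ S1 ∧ f a = b ∧ S1.map f = t := by
  classical
  obtain ⟨a, ha, h1, h2⟩ := (Multiset.map_eq_cons f S t b).mpr h
  exact ⟨a, S.erase a, (Multiset.cons_erase ha).symm, h1, h2⟩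

lemma down {d s : ℕ} {X Y : Multiset (G (ι ⊕ Fin m) d s)} (h : Cn X Y) :
    (∀ j, Wt X (Sum.inr j) = 0) → ∀ S T : Multiset (G ι d s), S.map (E m) = X →
      T.map (E m) = Y → Cn S T := by
  induction h with
  | rel x y h =>
    intro hz S T hS hT
    obtain ⟨u, v, u', v', A, h⟩ := h
    obtain ⟨s1, S1, rfl, rfl, hS1⟩ := map_cons_inv _ hS
    obtain ⟨s2, S2, rfl, rfl, hS2⟩ := map_cons_inv _ hS1
    obtain ⟨t1, T1, rfl, rfl, hT1⟩ := map_cons_inv _ hT
    obtain ⟨t2, T2, rfl, rfl, hT2⟩ := map_cons_inv _ hT1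
    have : S2 = T2 := Multiset.map_injective (E_inj m) (hS2.trans hT2.symm)
    subst this
    refine Relation.EqvGen.rel _ _ (Mv.mk s1 s2 t1 t2 S2 ?_)
    funext i
    have := congrFun h (Sum.inl i)
    simpa [E] using this
  | refl x =>
    intro hz S T hS hT
    have : S = T := Multiset.map_injective (E_inj m) (hS.trans hT.symm)
    subst this
    exact Relation.EqvGen.refl _
  | symm x y h ih =>
    intro hz S T hS hT
    exact (ih (by rw [Wt_cn h]; exact hz) T S hT hS).symm
  | trans x y z h1 h2 ih1 ih2 =>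
    intro hz S T hS hT
    have hzy : ∀ j, Wt y (Sum.inr j) = 0 := by
      intro j
      have h3 : Wt x = Wt y := Wt_cn h1
      rw [← h3]; exact hz j
    obtain ⟨U, hU⟩ := liftS m y hzy
    exact (ih1 hz S U hS hU).trans _ _ _ (ih2 hzy U T hU hT)

end

/-- PQ part TR. -/
theorem main : S_TR := by
  intro ι _ _ m d s k w
  refine ⟨?_, ?_⟩
  · intro h S T hS hT hwS hwT
    have h1 := h (S.map (E m)) (T.map (E m)) (by rw [Multiset.card_map, hS])
      (by rw [Multiset.card_map, hT]) (by rw [Wt_map, hwS]) (by rw [Wt_map, hwT])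
    refine down m h1 ?_ S T rfl rfl
    intro j
    rw [Wt_map]
    rfl
  · rintro ⟨S', hS', hw⟩
    obtain ⟨S, rfl⟩ := liftS m S' (fun j => by rw [hw]; rfl)
    refine ⟨S, by rw [← hS', Multiset.card_map], ?_⟩
    rw [Wt_map] at hw
    funext i
    exact congrFun hw (Sum.inl i)

end Pool.Agent.Helper65.PQ.TR
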