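import Pool.Agent.Helper65.PQ.TR

set_option autoImplicit false
set_option linter.unusedSectionVars false

/-!
PQ: auxiliary lemmas.
-/

namespace Pool.Agent.Helper65.PQ

open Finset Pool.Agent.Helper42.PQ Pool.Agent.Helper65.PQ.TR

variable {ι : Type} [Fintype ι] [DecidableEq ι] {d s : ℕ}

lemma Wt_zero : Wt (0 : Multiset (G ι d s)) = 0 := by simp [Wt]

lemma Wt_add (S T : Multiset (G ι d s)) : Wt (S + T) = Wt S + Wt T := by
  simp [Wt]

lemma Wt_sum {α : Type} (A : Finset α) (T : α → Multiset (G ι d s)) :
    Wt (∑ j ∈ A, T j) = ∑ j ∈ A, Wt (T j) := by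
  classical
  induction A using Finset.induction with
  | empty => simp [Wt_zero]
  | insert a A ha ih => rw [Finset.sum_insert ha, Finset.sum_insert ha, Wt_add, ih]

lemma sum_Wt (S : Multiset (G ι d s)) : ∑ i, Wt S i = S.card * d := by
  induction S using Multiset.induction with
  | empty => simp [Wt_zero]
  | cons a S ih =>
    rw [Wt_cons, Multiset.card_cons]
    simp only [Pi.add_apply]
    rw [Finset.sum_add_distrib, ih, a.2.1]
    ring

lemma Cn.refl (S : Multiset (G ι d s)) : Cn S S := Relation.EqvGen.refl _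

lemma Cn.symm {S T : Multiset (G ι d s)} (h : Cn S T) : Cn T S := Relation.EqvGen.symm _ _ h

lemma Cn.trans {S T U : Multiset (G ι d s)} (h : Cn S T) (h' : Cn T U) : Cn S U :=
  Relation.EqvGen.trans _ _ _ h h'

lemma Mv.add {S T : Multiset (G ι d s)} (h : Mv S T) (U : Multiset (G ι d s)) :
    Mv (S + U) (T + U) := by
  obtain ⟨u, v, u', v', A, h⟩ := h
  rw [Multiset.cons_add, Multiset.cons_add, Multiset.cons_add, Multiset.cons_add]
  exact Mv.mk u v u' v' (A + U) h

lemma Cn.add_right {S T : Multiset (G ι d s)} (h : Cn S T) (U : Multiset (G ι d s)) :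
    Cn (S + U) (T + U) := by
  induction h with
  | rel x y h => exact Relation.EqvGen.rel _ _ (Mv.add h U)
  | refl x => exact Cn.refl _
  | symm x y _ ih => exact Cn.symm ih
  | trans x y z _ _ ih1 ih2 => exact Cn.trans ih1 ih2

lemma Cn.add {S T S' T' : Multiset (G ι d s)} (h : Cn S T) (h' : Cn S' T') :
    Cn (S + S') (T + T') := by
  refine Cn.trans (Cn.add_right h S') ?_
  rw [add_comm T S', add_comm T T']
  exact Cn.add_right h' T

lemma Cn.sum {α : Type} (A : Finset α) (T T' : α → Multiset (G ι d s))
    (h : ∀ j ∈ A, Cn (T j) (T' j)) : Cn (∑ j ∈ A, T j) (∑ j ∈ A, T' j) := by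
  classical
  induction A using Finset.induction with
  | empty => simpa using Cn.refl _
  | insert a A ha ih =>
    rw [Finset.sum_insert ha, Finset.sum_insert ha]
    exact Cn.add (h a (by simp)) (ih (fun j hj => h j (by simp [hj])))

lemma Cn.card_eq {S T : Multiset (G ι d s)} (h : Cn S T) : S.card = T.card := by
  induction h with
  | rel x y h =>
    obtain ⟨u, v, u', v', A, h⟩ := h
    simp
  | refl x => rfl
  | symm x y _ ih => exact ih.symm
  | trans x y z _ _ ih1 ih2 => exact ih1.trans ih2

lemma exists_of_Wt_ne {S : Multiset (G ι d s)} {i : ι} (h : Wt S i ≠ 0) :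
    ∃ m ∈ S, m.1 i ≠ 0 := by
  induction S using Multiset.induction with
  | empty => simp [Wt_zero] at h
  | cons a S ih =>
    by_cases ha : a.1 i = 0
    · rw [Wt_cons] at h
      simp only [Pi.add_apply, ha, zero_add] at h
      obtain ⟨m, hm, h1⟩ := ih h
      exact ⟨m, Multiset.mem_cons_of_mem hm, h1⟩
    · exact ⟨a, Multiset.mem_cons_self a S, ha⟩

/-- action of a permutation of the variables on generators -/
def pG (σ : Equiv.Perm ι) (a : G ι d s) : G ι d s :=
  ⟨fun i => a.1 (σ i), by
    refine ⟨?_, ?_⟩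
    · rw [Equiv.sum_comp σ a.1]; exact a.2.1
    · refine le_trans (le_of_eq ?_) a.2.2
      apply Finset.card_bij (fun i _ => σ i)
      · intro i hi
        simp only [Finset.mem_filter, Finset.mem_univ, true_and] at hi ⊢
        exact hi
      · intro i _ j _ h
        exact σ.injective h
      · intro i hi
        refine ⟨σ.symm i, ?_, by simp⟩
        simp only [Finset.mem_filter, Finset.mem_univ, true_and] at hi ⊢
        simpa using hi⟩

lemma Wt_pG (σ : Equiv.Perm ι) (S : Multiset (G ι d s)) :
    Wt (S.map (pG σ)) = fun i => Wt S (σ i) := by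
  induction S using Multiset.induction with
  | empty => funext i; simp [Wt_zero]
  | cons a S ih =>
    rw [Multiset.map_cons, Wt_cons, ih, Wt_cons]
    funext i
    simp [pG]

lemma card_sp_comp (σ : Equiv.Perm ι) (w : ι → ℕ) : (sp (fun i => w (σ i))).card = (sp w).card := by
  apply Finset.card_bij (fun i _ => σ i)
  · intro i hi
    simp only [sp, Finset.mem_filter, Finset.mem_univ, true_and] at hi ⊢
    exact hi
  · intro i _ j _ h
    exact σ.injective h
  · intro i hi
    refine ⟨σ.symm i, ?_, by simp⟩
    simp only [sp, Finset.mem_filter, Finset.mem_univ, true_and] at hi ⊢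
    simpa using hi

end Pool.Agent.Helper65.PQ
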