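import Pool.Agent.Helper65.PQ.Bas

set_option autoImplicit false
set_option linter.unusedSectionVars false

/-!
PQ part TWO: re-division of two classes.
-/

namespace Pool.Agent.Helper65.PQ.TWO

open Finset Pool.Agent.Helper42.PQ Pool.Agent.Helper65.PQ

/-- PQ part TWO. -/
theorem main (hL : S_L) : S_TWO := by
  intro ι _ _ d r q k w ρ ρ' a b S S' hr hd hq hw hyp htwo hS hS'
  obtain ⟨T, hT, rfl⟩ := hS
  obtain ⟨T', hT', rfl⟩ := hS'
  have hd0 : 0 < d := by omega
  -- classes different from a, b
  have hcls : ∀ j, j ≠ a → j ≠ b → ∀ i, (if ρ i = j then w i else 0) =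
      (if ρ' i = j then w i else 0) := by
    intro j ha hb i
    by_cases hi : w i = 0
    · simp [hi]
    · obtain ⟨h1, h2⟩ := htwo i hi
      by_cases h3 : ρ i = j
      · have := h1 (by rw [h3]; exact ha) (by rw [h3]; exact hb)
        rw [if_pos h3, if_pos (this.trans h3)]
      · by_cases h4 : ρ' i = j
        · exfalso
          by_cases h5 : ρ i = a ∨ ρ i = b
          · rcases h2 h5 with h6 | h6
            · exact ha (h4.symm.trans h6)
            · exact hb (h4.symm.trans h6)
          · push Not at h5
            exact h3 ((h1 h5.1 h5.2).symm.trans h4)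
        · rw [if_neg h3, if_neg h4]
  have hcn : ∀ j, Wt (T j) = Wt (T' j) → Cn (T j) (T' j) := by
    intro j hj
    have h1 := sum_Wt (T j)
    have h2 := sum_Wt (T' j)
    have h3 : (T j).card = (T' j).card := by
      have : (T j).card * d = (T' j).card * d := by rw [← h1, ← h2, hj]
      exact Nat.eq_of_mul_eq_mul_right hd0 this
    exact (hL ι d r (T j).card (Wt (T j)) hr hd h1 (le_of_eq (hT j).2)).1 (T j) (T' j) rfl
      h3.symm rfl hj.symm
  have hcn' : ∀ j, j ≠ a → j ≠ b → Cn (T j) (T' j) := by
    intro j ha hb
    apply hcn
    rw [(hT j).1, (hT' j).1]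
    funext i
    exact hcls j ha hb i
  by_cases hab : a = b
  · subst hab
    apply Cn.sum
    intro j _
    by_cases hj : j = a
    · subst hj
      apply hcn
      rw [(hT j).1, (hT' j).1]
      funext i
      by_cases hi : w i = 0
      · simp [hi]
      · obtain ⟨h1, h2⟩ := htwo i hi
        by_cases h3 : ρ i = j
        · have := h2 (Or.inl h3)
          have h4 : ρ' i = j := by simpa using this
          rw [if_pos h3, if_pos h4]
        · have h4 := h1 h3 h3
          rw [if_neg h3, if_neg (by rw [h4]; exact h3)]
    · exact hcn' j hj hj
  · -- a third class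
    have hsplit : ∀ U : Fin q → Multiset (G ι d (r + 1)), ∑ j, U j =
        (U a + U b) + ∑ j ∈ (Finset.univ.erase a).erase b, U j := by
      intro U
      rw [← Finset.add_sum_erase Finset.univ U (Finset.mem_univ a),
        ← Finset.add_sum_erase (Finset.univ.erase a) U
          (Finset.mem_erase.mpr ⟨fun h => hab h.symm, Finset.mem_univ b⟩), add_assoc]
    rw [hsplit T, hsplit T']
    refine Cn.add ?_ (Cn.sum _ _ _ (fun j hj => ?_))
    · have hWU : Wt (T a + T b) = Wt (T' a + T' b) := by
        rw [Wt_add, Wt_add, (hT a).1, (hT b).1, (hT' a).1, (hT' b).1]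
        funext i
        simp only [Pi.add_apply]
        by_cases hi : w i = 0
        · simp [hi]
        · obtain ⟨h1, h2⟩ := htwo i hi
          by_cases h3 : ρ i = a
          · have h3b : ρ i ≠ b := by rw [h3]; exact hab
            rcases h2 (Or.inl h3) with h4 | h4
            · have h4b : ρ' i ≠ b := by rw [h4]; exact hab
              rw [if_pos h3, if_neg h3b, if_pos h4, if_neg h4b]
            · have h4b : ρ' i ≠ a := by rw [h4]; exact fun h => hab h.symm
              rw [if_pos h3, if_neg h3b, if_neg h4b, if_pos h4]
              omega
          · by_cases h5 : ρ i = b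
            · rcases h2 (Or.inr h5) with h4 | h4
              · have h4b : ρ' i ≠ b := by rw [h4]; exact hab
                rw [if_neg h3, if_pos h5, if_pos h4, if_neg h4b]
                omega
              · have h4b : ρ' i ≠ a := by rw [h4]; exact fun h => hab h.symm
                rw [if_neg h3, if_pos h5, if_neg h4b, if_pos h4]
            · have h4 := h1 h3 h5
              rw [if_neg h3, if_neg h5, if_neg (by rw [h4]; exact h3),
                if_neg (by rw [h4]; exact h5)]
      have hcard : (T a + T b).card < k := by
        have htot : (∑ j, T j).card = k := by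
          have h1 := sum_Wt (∑ j, T j)
          have h2 : Wt (∑ j, T j) = w := by
            rw [Wt_sum]
            funext i
            rw [Finset.sum_apply]
            simp only [fun j => (hT j).1]
            simp
          rw [h2, hw] at h1
          exact (Nat.eq_of_mul_eq_mul_right hd0 h1).symm
        obtain ⟨c, hca, hcb⟩ : ∃ c : Fin q, c ≠ a ∧ c ≠ b := by
          have : 0 < ((Finset.univ.erase a).erase b).card := by
            have h1 := Finset.card_erase_of_mem (Finset.mem_univ a)
            have h2 := Finset.pred_card_le_card_erase (s := Finset.univ.erase a) (a := b)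
            rw [h1] at h2
            simp only [Finset.card_univ, Fintype.card_fin] at h2
            omega
          obtain ⟨c, hc⟩ := Finset.card_pos.mp this
          rw [Finset.mem_erase, Finset.mem_erase] at hc
          exact ⟨c, hc.2.1, hc.1⟩
        have hc1 : 1 ≤ (T c).card := by
          rw [Nat.one_le_iff_ne_zero]
          intro h0
          have h1 := Multiset.card_eq_zero.mp h0
          have h2 := (hT c).2
          rw [h0, h1, Wt_zero] at h2
          have h3 : (sp (0 : ι → ℕ)).card = 0 := by
            rw [Finset.card_eq_zero]
            ext i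
            simp [sp]
          omega
        have h1 : (T a + T b).card + (∑ j ∈ (Finset.univ.erase a).erase b, T j).card = k := by
          rw [← htot, hsplit T]
          simp
        have h2 : (T c).card ≤ (∑ j ∈ (Finset.univ.erase a).erase b, T j).card := by
          rw [← Finset.add_sum_erase _ T (show c ∈ (Finset.univ.erase a).erase b from
            Finset.mem_erase.mpr ⟨hcb, Finset.mem_erase.mpr ⟨hca, Finset.mem_univ c⟩⟩)]
          simp
        omega
      have h1 := sum_Wt (T a + T b)
      have h2 := sum_Wt (T' a + T' b)
      have h3 : (T a + T b).card = (T' a + T' b).card := by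
        have : (T a + T b).card * d = (T' a + T' b).card * d := by rw [← h1, ← h2, hWU]
        exact Nat.eq_of_mul_eq_mul_right hd0 this
      exact hyp _ hcard _ h1 _ _ rfl h3.symm rfl hWU.symm
    · rw [Finset.mem_erase, Finset.mem_erase] at hj
      exact hcn' j hj.2.1 hj.1

end Pool.Agent.Helper65.PQ.TWO
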